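import Pool.Agent.helper22.OB.SpecZ

set_option autoImplicit false

namespace Pool.Agent.OB

open Pool.Agent.helper58.DC Pool.Agent.DI Pool.Agent.GR

/-- ob:ZT6. -/
theorem ZT6 : ZT6_stmt := by
  intro p hp G _ _
  have hG : Nat.card G ≠ 0 := Nat.card_pos.ne'
  obtain ⟨a, m, hm, hGm⟩ := Nat.exists_eq_pow_mul_and_not_dvd hG p hp.ne_one
  have hcm : Nat.Coprime p m := (Nat.Prime.coprime_iff_not_dvd hp).2 hm
  have hc : Nat.Coprime m (p ^ a) := (Nat.Coprime.pow_left a hcm).symm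
  obtain ⟨k, hk1, hk2⟩ := Nat.chineseRemainder hc p 1
  refine ⟨k, ?_, ?_⟩
  · rw [hGm]
    apply Nat.Coprime.mul_right
    · have h1 : Nat.gcd k (p ^ a) = Nat.gcd 1 (p ^ a) := hk2.gcd_eq
      unfold Nat.Coprime
      rw [h1, Nat.gcd_one_left]
    · have h1 : Nat.gcd k m = Nat.gcd p m := hk1.gcd_eq
      unfold Nat.Coprime
      rw [h1]
      exact hcm
  · intro g hg
    have h1 : orderOf g ∣ p ^ a * m := by
      rw [← hGm]
      exact orderOf_dvd_natCard g
    have h2 : Nat.Coprime (orderOf g) (p ^ a) :=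
      Nat.Coprime.pow_right a ((Nat.Prime.coprime_iff_not_dvd hp).2 hg).symm
    have h3 : orderOf g ∣ m := h2.dvd_of_dvd_mul_left h1
    rw [pow_eq_pow_iff_modEq]
    exact hk1.of_dvd h3

end Pool.Agent.OB
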